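import Pool.Agent.Helper96_EXP.CvrDet

/-!
# CVR: probabilities
-/

set_option autoImplicit false
set_option linter.unusedSectionVars false

open MeasureTheory ProbabilityTheory Function Filter

open scoped ENNReal BigOperators Topology

noncomputable section

namespace Pool.Agent.LE.H96

open Pool.Agent.Anderson Pool.Agent.Loc Pool.Agent.Helper54.Bal
  Pool.Agent.Helper96.EXP

variable {d : ℕ}

theorem union_le {Ω ι : Type*} [MeasurableSpace Ω] (P : Measure Ω) (F : Finset ι)
    (A : ι → Set Ω) {q r : ℝ} (hA : ∀ i ∈ F, P (A i) ≤ ENNReal.ofReal q)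
    (hr : F.card * q ≤ r) : P (⋃ i ∈ F, A i) ≤ ENNReal.ofReal r := by
  refine (measure_biUnion_finset_le F A).trans ((Finset.sum_le_sum hA).trans ?_)
  rw [Finset.sum_const, nsmul_eq_mul, ← ENNReal.ofReal_natCast,
    ← ENNReal.ofReal_mul (by positivity)]
  exact ENNReal.ofReal_le_ofReal hr

/-- the numbers -/
theorem exists_M (hd : 1 ≤ d) {κ q C : ℝ} (hκ : 0 < κ) (hq : 0 < q) (hC : 0 ≤ C) :
    ∃ M : ℕ, 4 ≤ M ∧ (2 * (M : ℝ)) ^ d * (C * (1 / (κ * M)) ^ (4 * d)) ≤ q := by
  set x : ℝ := min 1 (q / (C + 1)) with hx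
  have hx0 : 0 < x := lt_min one_pos (by positivity)
  obtain ⟨M, hM⟩ := exists_nat_ge (max 4 (2 / (κ ^ 4 * x)))
  have h4 : (4 : ℝ) ≤ M := (le_max_left _ _).trans hM
  have hM4 : 4 ≤ M := by exact_mod_cast h4
  have hM0 : (0 : ℝ) < M := by linarith
  refine ⟨M, hM4, ?_⟩
  have h1 : 2 / (κ ^ 4 * x) ≤ M := (le_max_right _ _).trans hM
  have h2 : 2 ≤ M * (κ ^ 4 * x) := by rwa [div_le_iff₀ (by positivity)] at h1
  have h3 : 2 * (M : ℝ) * (1 / (κ * M)) ^ 4 ≤ x := by
    rw [div_pow, one_pow, mul_pow, mul_one_div, div_le_iff₀ (by positivity)]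
    have h5 : (1 : ℝ) ≤ M := by linarith
    have h6 : M * (κ ^ 4 * x) * M ≤ x * (κ ^ 4 * M ^ 4) := by
      have h7 : x * (κ ^ 4 * M ^ 4) - M * (κ ^ 4 * x) * M = x * κ ^ 4 * M ^ 2 * (M ^ 2 - 1) := by
        ring
      have h8 : 0 ≤ x * κ ^ 4 * (M : ℝ) ^ 2 * (M ^ 2 - 1) := by
        have : (0 : ℝ) ≤ (M : ℝ) ^ 2 - 1 := by nlinarith
        positivity
      linarith
    nlinarith
  have e : (2 * (M : ℝ)) ^ d * (C * (1 / (κ * M)) ^ (4 * d)) =
      C * (2 * (M : ℝ) * (1 / (κ * M)) ^ 4) ^ d := by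
    rw [mul_pow (2 * (M : ℝ)), ← pow_mul]
    ring
  rw [e]
  have h9 : (2 * (M : ℝ) * (1 / (κ * M)) ^ 4) ^ d ≤ x := by
    refine (pow_le_pow_left₀ (by positivity) h3 d).trans ?_
    calc x ^ d ≤ x ^ 1 := pow_le_pow_of_le_one hx0.le (min_le_left _ _) hd
      _ = x := pow_one x
  calc C * _ ≤ C * x := mul_le_mul_of_nonneg_left h9 hC
    _ ≤ C * (q / (C + 1)) := mul_le_mul_of_nonneg_left (min_le_right _ _) hC
    _ ≤ q := by
        rw [mul_div_assoc', div_le_iff₀ (by positivity)]
        nlinarith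

theorem poly_small (e : ℕ) {μ : ℝ} (hμ : 0 < μ) (a b : ℝ) {q : ℝ} (hq : 0 < q) :
    ∀ᶠ L : ℕ in atTop, b * (2 * (L : ℝ) + a) ^ e * Real.exp (-μ * L) ≤ q :=
  ((tendsto_poly_exp e hμ a b).eventually (eventually_lt_nhds hq)).mono fun _ h => h.le

theorem num_ev (d : ℕ) {μ κ : ℝ} (hκ : 0 < κ) (hμκ : μ = 16 * κ) :
    ∀ᶠ L : ℕ in atTop, Real.exp (-(μ - 4 * κ) * L) *
      (1 + 2 * d * (2 * L + 1) ^ d * Real.exp (κ * L)) ≤ Real.exp (-(μ / 2) * L) := by
  have h1 := poly_small 0 (μ := 4 * κ) (by positivity) 1 1 (q := 1 / 2) (by norm_num)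
  have h2 := poly_small d (μ := 3 * κ) (by positivity) 1 (2 * d) (q := 1 / 2) (by norm_num)
  filter_upwards [h1, h2] with L h1 h2
  rw [pow_zero, mul_one, one_mul] at h1
  have e1 : Real.exp (-(μ - 4 * κ) * L) =
      Real.exp (-(μ / 2) * L) * Real.exp (-(4 * κ) * L) := by
    rw [← Real.exp_add]; congr 1; rw [hμκ]; ring
  have e2 : Real.exp (-(4 * κ) * L) * Real.exp (κ * L) = Real.exp (-(3 * κ) * L) := by
    rw [← Real.exp_add]; congr 1; ring
  rw [e1]
  have e3 : Real.exp (-(μ / 2) * L) * Real.exp (-(4 * κ) * L) *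
      (1 + 2 * d * (2 * L + 1) ^ d * Real.exp (κ * L)) =
      Real.exp (-(μ / 2) * L) * (Real.exp (-(4 * κ) * L) +
        2 * d * (2 * L + 1) ^ d * Real.exp (-(3 * κ) * L)) := by
    rw [← e2]; ring
  rw [e3]
  have h3 : Real.exp (-(4 * κ) * L) + 2 * d * (2 * L + 1) ^ d * Real.exp (-(3 * κ) * L) ≤ 1 := by
    have h2' : 2 * (d : ℝ) * (2 * L + 1) ^ d * Real.exp (-(3 * κ) * L) ≤ 1 / 2 := h2
    linarith
  calc _ ≤ Real.exp (-(μ / 2) * L) * 1 := mul_le_mul_of_nonneg_left h3 (Real.exp_pos _).le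
    _ = _ := mul_one _

theorem measurableSet_allGood (L : ℕ) (m E : ℝ) :
    MeasurableSet {V : Site d → ℝ | AllGoodC V 0 L m E} := by
  have e : {V : Site d → ℝ | AllGoodC V 0 L m E} = ⋂ s ∈ box (0 : Site d) L,
      ({V | (RM V (box s L) E).det ≠ 0} ∩ ⋂ u ∈ box s L, {V | sd s u = L →
        |gr V (box s L) E s u| ≤ Real.exp (-m * L)}) := by
    ext V
    simp only [AllGoodC, Set.mem_ofPred_eq, Set.mem_iInter, Set.mem_inter_iff]
    constructor
    · intro h s hs
      exact ⟨(h s hs).1, fun u _ hu => (h s hs).2 u hu⟩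
    · intro h s hs
      exact ⟨(h s hs).1, fun u hu => (h s hs).2 u (mem_box.2 hu.le) hu⟩
  rw [e]
  refine Finset.measurableSet_biInter _ fun s _ => MeasurableSet.inter ?_ ?_
  · exact ((isClosed_singleton.preimage (continuous_det (box s L) E)).measurableSet).compl
  · refine Finset.measurableSet_biInter _ fun u _ => ?_
    by_cases hu : sd s u = L
    · have : {V : Site d → ℝ | sd s u = L → |gr V (box s L) E s u| ≤ Real.exp (-m * L)} =
          {V | |gr V (box s L) E s u| ≤ Real.exp (-m * L)} := by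
        ext V; simp [hu]
      rw [this]
      exact measurableSet_le (measurable_gr _ _ _ _).abs measurable_const
    · have : {V : Site d → ℝ | sd s u = L → |gr V (box s L) E s u| ≤ Real.exp (-m * L)} =
          Set.univ := by
        ext V; simp [hu]
      rw [this]
      exact MeasurableSet.univ

theorem allGood_congr (L : ℕ) (m E : ℝ) {V V' : Site d → ℝ}
    (h : ∀ x ∈ box (0 : Site d) (2 * L), V x = V' x) :
    AllGoodC V 0 L m E ↔ AllGoodC V' 0 L m E := by
  have key : ∀ s ∈ box (0 : Site d) L, ∀ x ∈ box s L, V x = V' x := by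
    intro s hs x hx
    apply h
    rw [mem_box] at *
    have := sd_triangle 0 s x
    omega
  unfold AllGoodC
  constructor
  · intro g s hs
    rw [← RM_congr (key s hs)]
    refine ⟨(g s hs).1, fun u hu => ?_⟩
    rw [← gr_congr (key s hs)]
    exact (g s hs).2 u hu
  · intro g s hs
    rw [RM_congr (key s hs)]
    refine ⟨(g s hs).1, fun u hu => ?_⟩
    rw [gr_congr (key s hs)]
    exact (g s hs).2 u hu

theorem cvr (hErg : ErgStmt) (hRst : RstStmt) (hClo : CloStmt) : CvrStmt := by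
  rintro d σ E hd hσ ⟨C₁, hone⟩ ⟨C₂, hchn⟩ C m hm hS p hp L₀
  set S : Set (Site d → ℝ) := {V | GoodE C m V E} with hSdef
  have hSm : MeasurableSet S := by
    have h1 := (hClo d C m).1
    have h2 : Continuous fun V : Site d → ℝ => (V, E) := by fun_prop
    exact (h1.preimage h2).measurableSet
  set ρ : ℝ := 1 / |σ| with hρ
  have hdens : BddDens (gl σ) ρ := bddDens_gl hσ
  have hρ0 : 0 < ρ := by rw [hρ]; positivity
  set κ : ℝ := m / 128 with hκ
  have hκ0 : 0 < κ := by rw [hκ]; positivity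
  set μ : ℝ := m / 8 with hμ
  have hμκ : μ = 16 * κ := by rw [hμ, hκ]; ring
  obtain ⟨M, hM4, hM⟩ := exists_M hd hκ0 (show 0 < p / 8 by positivity) (abs_nonneg C₂)
  have hM0 : (0 : ℝ) < M := by
    have : (4 : ℝ) ≤ M := by exact_mod_cast hM4
    linarith
  obtain ⟨n₀, hn₀⟩ := hErg d (gl σ) S hd hSm hS (p / (8 * (2 * M) ^ d)) (by positivity)
  obtain ⟨L₁, hL₁⟩ := hRst d (gl σ) ρ hdens C m E hm (p / 8) (by positivity)
  have ev1 := num_ev d hκ0 hμκ
  have ev2 := poly_small (3 * d) (μ := κ / 3) (by positivity) (1 / 3) (3 ^ (3 * d) * |C₁|)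
    (show 0 < p / 8 by positivity)
  have ev3 := poly_small (3 * d) (μ := κ) hκ0 1 (6 * ρ) (show 0 < p / 8 by positivity)
  obtain ⟨L₂, hL₂⟩ := eventually_atTop.1 (ev1.and (ev2.and ev3))
  set n : ℕ := max 1 (max n₀ (max L₀ (max L₁ L₂))) with hn
  have hn1 : 1 ≤ n := le_max_left _ _
  have hnn₀ : n₀ ≤ n := (le_max_left _ _).trans (le_max_right _ _)
  have hnL₀ : L₀ ≤ n := (le_max_left _ _).trans ((le_max_right _ _).trans (le_max_right _ _))
  have hnL₁ : L₁ ≤ n := (le_max_left _ _).trans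
    ((le_max_right _ _).trans ((le_max_right _ _).trans (le_max_right _ _)))
  have hnL₂ : L₂ ≤ n := (le_max_right _ _).trans
    ((le_max_right _ _).trans ((le_max_right _ _).trans (le_max_right _ _)))
  have hnM : n ≤ M * n := Nat.le_mul_of_pos_left n (by omega)
  refine ⟨M * n, hnL₀.trans hnM, ?_⟩
  set L : ℕ := M * n with hL
  obtain ⟨num, ev2, ev3⟩ := hL₂ L (hnL₂.trans hnM)
  have hLr : (L : ℝ) = M * n := by rw [hL]; push_cast; ring
  have hn0 : (0 : ℝ) < n := by exact_mod_cast hn1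
  have hL0 : (0 : ℝ) < L := by rw [hLr]; positivity
  set B : Finset (Site d) := box 0 (3 * L) with hB
  have hcardM : ((box (0 : Site d) (M - 1)).card : ℝ) ≤ (2 * M) ^ d := by
    rw [card_box]
    push_cast
    apply pow_le_pow_left₀ (by positivity)
    have : ((M - 1 : ℕ) : ℝ) = M - 1 := by
      rw [Nat.cast_sub (by omega)]; simp
    rw [this]
    linarith
  -- the bad events
  set E1 : Set (Site d → ℝ) := ⋃ k ∈ box (0 : Site d) (M - 1),
    {V | ∀ s ∈ box (pt n k) n, tau s V ∉ S} with hE1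
  set E2 : Set (Site d → ℝ) := {V | ∃ s ∈ box (0 : Site d) L, GoodE C m (tau s V) E ∧
        ∃ w ∈ box (0 : Site d) (3 * L), L ≤ 2 * sd s w ∧
          Real.exp (-(m / 8) * L) < |gr V (box 0 (3 * L)) E s w|} with hE2
  set E3 : Set (Site d → ℝ) := ⋃ k ∈ box (0 : Site d) (M - 1),
    {V | ∃ s ∈ box (pt n k) n, |gr V (box 0 (3 * L)) E (pt n k) s| < Real.exp (-(κ * L))}
    with hE3
  set E4 : Set (Site d → ℝ) := ⋃ q ∈ B ×ˢ (B ×ˢ B),
    {V | Real.exp (κ * L) * |gr V B E q.1 q.2.2| < |gr V B E q.1 q.2.1| * |gr V B E q.2.1 q.2.2|}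
    with hE4
  set F5 : Finset (Site d × (Site d × Site d)) :=
    (box (0 : Site d) L).biUnion fun a => {a} ×ˢ ((box a L) ×ˢ (box a L)) with hF5
  set E5 : Set (Site d → ℝ) := ⋃ q ∈ F5,
    {V | Real.exp (κ * L) < |gr V (box q.1 L) E q.2.1 q.2.2|} with hE5
  set E6 : Set (Site d → ℝ) := {V | (RM V B E).det = 0} ∪ ⋃ a ∈ box (0 : Site d) L,
    {V | (RM V (box a L) E).det = 0} with hE6
  have p1 : PP d (gl σ) E1 ≤ ENNReal.ofReal (p / 8) := by
    apply union_le _ _ _ (fun k _ => hn₀ n hnn₀ (pt n k))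
    calc ((box (0 : Site d) (M - 1)).card : ℝ) * (p / (8 * (2 * M) ^ d))
        ≤ (2 * M) ^ d * (p / (8 * (2 * M) ^ d)) :=
          mul_le_mul_of_nonneg_right hcardM (by positivity)
      _ = p / 8 := by field_simp
  have p2 : PP d (gl σ) E2 ≤ ENNReal.ofReal (p / 8) := hL₁ L (hnL₁.trans hnM)
  have p3 : PP d (gl σ) E3 ≤ ENNReal.ofReal (p / 8) := by
    apply union_le _ _ _ (q := |C₂| * (1 / (κ * M)) ^ (4 * d)) _
      ((mul_le_mul_of_nonneg_right hcardM (by positivity)).trans hM)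
    intro k hk
    have hsub : box (pt n k) n ⊆ box 0 (3 * L) := by
      intro s hs
      rw [mem_box] at hs ⊢
      have := pt_box hk hs (by omega)
      rw [← hL] at this
      omega
    refine (Pool.Agent.Mob.H75.PP_le_PL (Λ := box 0 (3 * L)) ?_).trans
      ((hchn (3 * L) n (pt n k) (κ * L) hn1 hsub (by positivity)).trans ?_)
    · intro V V' hVV
      simp only [Set.mem_ofPred_eq]
      simp only [gr_congr hVV]
    · apply ENNReal.ofReal_le_ofReal
      have e : (n : ℝ) / (κ * L) = 1 / (κ * M) := by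
        rw [hLr]; field_simp
      rw [e]
      exact mul_le_mul_of_nonneg_right (le_abs_self _) (by positivity)
  have p4 : PP d (gl σ) E4 ≤ ENNReal.ofReal (p / 8) := by
    apply union_le _ _ _ (q := |C₁| * Real.exp (-(κ * L) / 3)) _ _
    · rintro ⟨x, u, y⟩ hq
      simp only [Finset.mem_product] at hq
      refine (Pool.Agent.Mob.H75.PP_le_PL (Λ := B) ?_).trans
        ((hone B x u y (κ * L) hq.1 hq.2.1 hq.2.2 (by positivity)).trans ?_)
      · intro V V' hVV
        simp only [Set.mem_ofPred_eq]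
        simp only [gr_congr hVV]
      · apply ENNReal.ofReal_le_ofReal
        exact mul_le_mul_of_nonneg_right (le_abs_self _) (Real.exp_pos _).le
    · rw [Finset.card_product, Finset.card_product, hB, card_box]
      refine le_trans (le_of_eq ?_) ev2
      have e1 : (3 : ℝ) ^ (3 * d) * (2 * (L : ℝ) + 1 / 3) ^ (3 * d) = (6 * L + 1) ^ (3 * d) := by
        rw [← mul_pow]; congr 1; ring
      have e2 : Real.exp (-(κ * L) / 3) = Real.exp (-(κ / 3) * L) := by
        congr 1; ring
      rw [e2]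
      push_cast
      have e3 : (2 * (3 * (L : ℝ)) + 1) ^ d * ((2 * (3 * L) + 1) ^ d * (2 * (3 * L) + 1) ^ d) =
          (6 * L + 1) ^ (3 * d) := by
        rw [← pow_add, ← pow_add]
        have : d + (d + d) = 3 * d := by ring
        rw [this]
        congr 1
        ring
      rw [e3, ← e1]
      ring
  have hF5card : (F5.card : ℝ) ≤ (2 * L + 1) ^ (3 * d) := by
    have h1 : F5.card ≤ ∑ a ∈ box (0 : Site d) L, ((2 * L + 1) ^ d * (2 * L + 1) ^ d) := by
      refine Finset.card_biUnion_le.trans (Finset.sum_le_sum fun a _ => ?_)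
      rw [Finset.card_product, Finset.card_product, Finset.card_singleton, one_mul, card_box]
    rw [Finset.sum_const, card_box, smul_eq_mul] at h1
    have h2 : (2 * L + 1) ^ d * ((2 * L + 1) ^ d * (2 * L + 1) ^ d) = (2 * L + 1) ^ (3 * d) := by
      rw [← pow_add, ← pow_add]
      congr 1
      ring
    rw [h2] at h1
    exact_mod_cast h1
  have p5 : PP d (gl σ) E5 ≤ ENNReal.ofReal (p / 8) := by
    apply union_le _ _ _ (q := 6 * ρ / Real.exp (κ * L)) _ _
    · rintro ⟨a, b, u⟩ _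
      refine (Pool.Agent.Mob.H75.PP_le_PL (Λ := box a L) ?_).trans
        (PL_weak hdens (box a L) E b u (Real.exp_pos _))
      intro V V' hVV
      simp only [Set.mem_ofPred_eq]
      rw [gr_congr hVV]
    · calc (F5.card : ℝ) * (6 * ρ / Real.exp (κ * L))
          ≤ (2 * L + 1) ^ (3 * d) * (6 * ρ / Real.exp (κ * L)) :=
            mul_le_mul_of_nonneg_right hF5card (by positivity)
        _ = 6 * ρ * (2 * (L : ℝ) + 1) ^ (3 * d) * Real.exp (-κ * L) := by
            have : Real.exp (-κ * L) = (Real.exp (κ * L))⁻¹ := by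
              rw [← Real.exp_neg]; congr 1; ring
            rw [this]
            field_simp
        _ ≤ _ := ev3
  have det0 : ∀ Λ : Finset (Site d), PP d (gl σ) {V | (RM V Λ E).det = 0} = 0 := by
    intro Λ
    have h1 := Pool.Agent.Mob.H75.PP_le_PL (ν := gl σ) (Λ := Λ)
      (S := {V : Site d → ℝ | (RM V Λ E).det = 0}) (by
        intro V V' hVV
        simp only [Set.mem_ofPred_eq]
        rw [RM_congr hVV])
    rw [PL_det hdens Λ Λ le_rfl E] at h1
    exact le_antisymm h1 zero_le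
  have p6 : PP d (gl σ) E6 = 0 := by
    rw [hE6, measure_union_null_iff]
    refine ⟨det0 B, ?_⟩
    apply le_antisymm _ zero_le
    refine (measure_biUnion_finset_le _ _).trans ?_
    rw [Finset.sum_congr rfl fun a _ => det0 (box a L), Finset.sum_const_zero]
  -- the inclusion
  have hincl : {V : Site d → ℝ | ¬ AllGoodC V 0 L (m / 16) E} ⊆
      E1 ∪ E2 ∪ (E3 ∪ E4) ∪ (E5 ∪ E6) := by
    intro V hV
    by_contra hcon
    simp only [Set.mem_union, not_or] at hcon
    obtain ⟨⟨⟨c1, c2⟩, c3, c4⟩, c5, c6⟩ := hcon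
    apply hV
    have e : m / 16 = μ / 2 := by rw [hμ]; ring
    rw [e]
    have c6a : (RM V B E).det ≠ 0 := fun h => c6 (Or.inl h)
    have c6b : ∀ a ∈ box (0 : Site d) L, (RM V (box a L) E).det ≠ 0 := by
      intro a ha h
      apply c6
      right
      simp only [Set.mem_iUnion, Set.mem_ofPred_eq, exists_prop]
      exact ⟨a, ha, h⟩
    apply allGood (κ := κ) hL hM4 hn1 c6a c6b _ _ _ _ num
    · intro a ha b u
      by_contra hcon
      push Not at hcon
      by_cases hbu : b ∈ box a L ∧ u ∈ box a L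
      · apply c5
        rw [hE5]
        simp only [Set.mem_iUnion, Set.mem_ofPred_eq, exists_prop]
        refine ⟨(a, b, u), ?_, hcon⟩
        rw [hF5, Finset.mem_biUnion]
        exact ⟨a, ha, by
          simp only [Finset.mem_product, Finset.mem_singleton, true_and]
          exact hbu⟩
      · unfold gr at hcon
        rw [dif_neg hbu, abs_zero] at hcon
        exact absurd hcon (not_lt.2 (Real.exp_pos _).le)
    · intro x hx u hu y hy
      by_contra hcon
      push Not at hcon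
      apply c4
      rw [hE4]
      simp only [Set.mem_iUnion, Set.mem_ofPred_eq, exists_prop]
      exact ⟨(x, u, y), by
        simp only [Finset.mem_product]
        exact ⟨hx, hu, hy⟩, hcon⟩
    · intro k hk a ha
      by_contra hcon
      push Not at hcon
      apply c3
      rw [hE3]
      simp only [Set.mem_iUnion, Set.mem_ofPred_eq, exists_prop]
      exact ⟨k, hk, a, ha, hcon⟩
    · intro k hk
      have c1' : ¬ ∀ s ∈ box (pt n k) n, tau s V ∉ S := by
        intro h
        apply c1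
        rw [hE1]
        simp only [Set.mem_iUnion, Set.mem_ofPred_eq, exists_prop]
        exact ⟨k, hk, h⟩
      push Not at c1'
      obtain ⟨s, hs, hsS⟩ := c1'
      refine ⟨s, hs, fun w hw hsw => ?_⟩
      by_contra hcon
      push Not at hcon
      apply c2
      refine ⟨s, ?_, hsS, w, hw, hsw, hcon⟩
      rw [mem_box]
      exact pt_box hk (mem_box.1 hs) (by omega)
  have hfin : PL (gl σ) (box (0 : Site d) (2 * L)) {V | ¬ AllGoodC V 0 L (m / 16) E} =
      PP d (gl σ) {V | ¬ AllGoodC V 0 L (m / 16) E} := by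
    apply Pool.Agent.Mob.H75.PL_eq_PP (measurableSet_allGood L (m / 16) E).compl
    intro V V' hVV
    exact not_congr (allGood_congr L (m / 16) E hVV)
  rw [hfin]
  refine (measure_mono hincl).trans ?_
  have hp8 : (0 : ℝ) ≤ p / 8 := by positivity
  calc PP d (gl σ) (E1 ∪ E2 ∪ (E3 ∪ E4) ∪ (E5 ∪ E6))
      ≤ (PP d (gl σ) E1 + PP d (gl σ) E2 + (PP d (gl σ) E3 + PP d (gl σ) E4)) +
          (PP d (gl σ) E5 + PP d (gl σ) E6) := by
        refine (measure_union_le _ _).trans (add_le_add ?_ (measure_union_le _ _))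
        refine (measure_union_le _ _).trans (add_le_add (measure_union_le _ _)
          (measure_union_le _ _))
    _ ≤ (ENNReal.ofReal (p / 8) + ENNReal.ofReal (p / 8) +
          (ENNReal.ofReal (p / 8) + ENNReal.ofReal (p / 8))) +
          (ENNReal.ofReal (p / 8) + 0) := by
        rw [p6]
        gcongr
    _ ≤ ENNReal.ofReal p := by
        rw [add_zero, ← ENNReal.ofReal_add hp8 hp8, ← ENNReal.ofReal_add (by positivity)
          (by positivity), ← ENNReal.ofReal_add (by positivity) (by positivity)]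
        apply ENNReal.ofReal_le_ofReal
        linarith

end Pool.Agent.LE.H96
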