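import Pool.Agent.LE.Stmts2
import Pool.Agent.Helper54_LY.Low

/-! OneTail from the one site inequality. -/

set_option autoImplicit false
set_option linter.unusedSectionVars false

open MeasureTheory ProbabilityTheory Function

open scoped ENNReal BigOperators

noncomputable section

namespace Pool.Agent.LE.H96

open Pool.Agent.Anderson Pool.Agent.Loc Pool.Agent.Helper54.Bal

variable {d : ℕ}

theorem oneTail {ν : Measure ℝ} [IsProbabilityMeasure ν] {ρ : ℝ} (hν : BddDens ν ρ) (E : ℝ) :
    OneTail d ν E (8 * ρ) := by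
  intro Λ x u y t _ _ _ ht
  refine (Pool.Agent.LY.one hν Λ E u x y (Real.exp_pos t)).trans ?_
  apply ENNReal.ofReal_le_ofReal
  have hρ := hν.1
  rw [div_eq_mul_inv, ← Real.exp_neg]
  apply mul_le_mul_of_nonneg_left _ (by positivity)
  apply Real.exp_le_exp.2
  linarith

theorem exists_oneTail (d : ℕ) (σ E : ℝ) (_ : 1 ≤ d) (hσ : σ ≠ 0) :
    ∃ C, OneTail d (gl σ) E C :=
  ⟨_, oneTail (bddDens_gl hσ) E⟩

end Pool.Agent.LE.H96
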