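import Pool.Agent.LE.Stmts2
import Pool.Agent.Helper58_Mob.Geo

/-!
# CVR, deterministic part: from good cells to good cubes
-/

set_option autoImplicit false
set_option linter.unusedSectionVars false

open MeasureTheory ProbabilityTheory Function

open scoped ENNReal BigOperators

noncomputable section

namespace Pool.Agent.LE.H96

open Pool.Agent.Anderson Pool.Agent.Loc Pool.Agent.Helper54.Bal
  Pool.Agent.Helper96.EXP

variable {d : ℕ}

/-- the integer point `n k` -/
def pt (n : ℕ) (k : Site d) : Site d := fun i => (n : ℤ) * k i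

theorem cover_one {n M : ℕ} (hM : 1 ≤ M) {a : ℤ} (ha : |a| ≤ ((M * n : ℕ) : ℤ)) :
    ∃ k : ℤ, |k| ≤ ((M - 1 : ℕ) : ℤ) ∧ |n * k - a| ≤ n := by
  obtain ⟨M', rfl⟩ : ∃ M', M = M' + 1 := ⟨M - 1, by omega⟩
  simp only [Nat.add_sub_cancel]
  rcases Nat.eq_zero_or_pos n with hn | hn
  · subst hn
    simp only [mul_zero, Nat.cast_zero, abs_nonpos_iff] at ha
    subst ha
    exact ⟨0, by simp, by simp⟩
  have hn' : (0 : ℤ) < n := by exact_mod_cast hn
  have main : ∀ b : ℤ, 0 ≤ b → b ≤ (((M' + 1) * n : ℕ) : ℤ) →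
      ∃ k : ℤ, |k| ≤ (M' : ℤ) ∧ |n * k - b| ≤ n := by
    intro b hb0 hb
    rcases le_or_gt (b / n) M' with h | h
    · refine ⟨b / n, ?_, ?_⟩
      · rw [abs_of_nonneg (Int.ediv_nonneg hb0 hn'.le)]
        exact h
      · have h1 := Int.emod_add_mul_ediv b n
        have h2 := Int.emod_nonneg b hn'.ne'
        have h3 := Int.emod_lt_of_pos b hn'
        rw [abs_le]
        constructor <;> linarith
    · refine ⟨M', by simp, ?_⟩
      have h1 := Int.emod_add_mul_ediv b n
      have h2 := Int.emod_nonneg b hn'.ne'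
      have h4 : (n : ℤ) * (M' + 1) ≤ n * (b / n) := by
        apply mul_le_mul_of_nonneg_left _ hn'.le
        omega
      push_cast at hb
      rw [abs_le]
      constructor <;> nlinarith
  rcases le_total 0 a with h | h
  · rw [abs_of_nonneg h] at ha
    exact main a h ha
  · rw [abs_of_nonpos h] at ha
    obtain ⟨k, hk1, hk2⟩ := main (-a) (by linarith) ha
    refine ⟨-k, by rwa [abs_neg], ?_⟩
    have : (n : ℤ) * -k - a = -(n * k - -a) := by ring
    rw [this, abs_neg]
    exact hk2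

/-- the cubes of radius `n` with centres `n k` cover -/
theorem cover {n M : ℕ} (hM : 1 ≤ M) {a : Site d} (ha : a ∈ box (0 : Site d) (M * n)) :
    ∃ k ∈ box (0 : Site d) (M - 1), sd (pt n k) a ≤ n := by
  rw [mem_box, sd_le_iff] at ha
  have h : ∀ i, ∃ k : ℤ, |k| ≤ ((M - 1 : ℕ) : ℤ) ∧ |n * k - a i| ≤ n := by
    intro i
    apply cover_one hM
    have := ha i
    simpa using this
  choose k hk1 hk2 using h
  refine ⟨k, ?_, ?_⟩
  · rw [mem_box, sd_le_iff]
    intro i
    simpa using hk1 i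
  · rw [sd_le_iff]
    intro i
    exact hk2 i

theorem pt_box {n M : ℕ} {k : Site d} (hk : k ∈ box (0 : Site d) (M - 1)) {s : Site d}
    (hs : sd (pt n k) s ≤ n) (hM : 1 ≤ M) : sd 0 s ≤ M * n := by
  rw [mem_box] at hk
  have h1 : sd 0 (pt n k) ≤ n * (M - 1) := by
    rw [sd_le_iff] at hk ⊢
    intro i
    have := hk i
    simp only [Pi.zero_apply, zero_sub, abs_neg, pt] at this ⊢
    rw [abs_mul, Nat.abs_cast]
    push_cast
    exact mul_le_mul_of_nonneg_left this (by positivity)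
  have h2 := sd_triangle 0 (pt n k) s
  have h3 : n * (M - 1) + n = M * n := by
    obtain ⟨M', rfl⟩ : ∃ M', M = M' + 1 := ⟨M - 1, by omega⟩
    simp only [Nat.add_sub_cancel]
    ring
  omega

/-- the transfer from a good site to all the sites of its cell -/
theorem transfer_site {V : Site d → ℝ} {E κ μ : ℝ} {L : ℕ} {B : Finset (Site d)}
    {c s a w : Site d}
    (hone : ∀ x ∈ B, ∀ u ∈ B, ∀ y ∈ B,
      |gr V B E x u| * |gr V B E u y| ≤ Real.exp (κ * L) * |gr V B E x y|)
    (hc : c ∈ B) (hs : s ∈ B) (ha : a ∈ B) (hw : w ∈ B)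
    (h1 : Real.exp (-(κ * L)) ≤ |gr V B E c s|) (h2 : Real.exp (-(κ * L)) ≤ |gr V B E c a|)
    (h3 : |gr V B E s w| ≤ Real.exp (-μ * L)) :
    |gr V B E a w| ≤ Real.exp (-(μ - 4 * κ) * L) := by
  have e1 := hone s hs c hc a ha
  have e2 := hone s hs a ha w hw
  rw [gr_symm V B E s c] at e1
  have p0 := Real.exp_pos (κ * L)
  have p1 := Real.exp_pos (-(κ * L))
  have q1 : Real.exp (-(3 * (κ * L))) ≤ |gr V B E s a| := by
    have h4 : Real.exp (-(κ * L)) * Real.exp (-(κ * L)) ≤ |gr V B E c s| * |gr V B E c a| :=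
      mul_le_mul h1 h2 p1.le (abs_nonneg _)
    have h5 := h4.trans e1
    have h6 : Real.exp (-(3 * (κ * L))) =
        Real.exp (-(κ * L)) * (Real.exp (-(κ * L)) * Real.exp (-(κ * L))) := by
      rw [← Real.exp_add, ← Real.exp_add]; congr 1; ring
    rw [h6]
    calc Real.exp (-(κ * L)) * (Real.exp (-(κ * L)) * Real.exp (-(κ * L)))
        ≤ Real.exp (-(κ * L)) * (Real.exp (κ * L) * |gr V B E s a|) :=
          mul_le_mul_of_nonneg_left h5 p1.le
      _ = |gr V B E s a| := by
          rw [← mul_assoc, ← Real.exp_add]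
          simp
  have h7 : Real.exp (-(3 * (κ * L))) * |gr V B E a w| ≤
      Real.exp (κ * L) * Real.exp (-μ * L) :=
    (mul_le_mul_of_nonneg_right q1 (abs_nonneg _)).trans
      (e2.trans (mul_le_mul_of_nonneg_left h3 p0.le))
  have h8 : |gr V B E a w| = Real.exp (3 * (κ * L)) * (Real.exp (-(3 * (κ * L))) *
      |gr V B E a w|) := by
    rw [← mul_assoc, ← Real.exp_add]
    simp
  rw [h8]
  refine (mul_le_mul_of_nonneg_left h7 (Real.exp_pos _).le).trans (le_of_eq ?_)
  rw [← Real.exp_add, ← Real.exp_add]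
  congr 1
  ring

/-- from the large cube to a cube of radius `L` about `a` -/
theorem to_cube {V : Site d → ℝ} {E κ τ : ℝ} {L : ℕ} {a u : Site d} (hτ : 0 ≤ τ)
    (hsub : box a (L + 1) ⊆ box 0 (3 * L))
    (hB : (RM V (box 0 (3 * L)) E).det ≠ 0) (hA : (RM V (box a L) E).det ≠ 0)
    (hT : ∀ b, |gr V (box a L) E b u| ≤ Real.exp (κ * L)) (hu : sd a u = L)
    (hG : ∀ w ∈ box (0 : Site d) (3 * L), L ≤ sd a w → sd a w ≤ L + 1 →
      |gr V (box 0 (3 * L)) E a w| ≤ τ) :
    |gr V (box a L) E a u| ≤ τ * (1 + 2 * d * (2 * L + 1) ^ d * Real.exp (κ * L)) := by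
  set B := box (0 : Site d) (3 * L) with hBdef
  set A := box a L with hAdef
  have hAB : A ⊆ B := (box_mono a (Nat.le_succ L)).trans hsub
  have huA : u ∈ A := mem_box.2 hu.le
  have haA : a ∈ A := mem_box.2 (by rw [sd_self]; omega)
  have h := Pool.Agent.Mob.H58.geo d V B A E hAB hB hA u huA a haA
  have h1 : gr V A E a u = gr V B E a u -
      ∑ b ∈ A, ∑ b' ∈ B \ A, gr V A E u b * hop b b' * gr V B E b' a := by
    rw [gr_symm V A E a u, gr_symm V B E a u, h]
    ring
  have h2 : |gr V B E a u| ≤ τ := hG u (hAB huA) hu.ge (by omega)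
  have h3 : ∀ b ∈ A, ∑ b' ∈ B \ A, |gr V A E u b * hop b b' * gr V B E b' a| ≤
      2 * d * (Real.exp (κ * L) * τ) := by
    intro b hb
    calc ∑ b' ∈ B \ A, |gr V A E u b * hop b b' * gr V B E b' a|
        ≤ ∑ b' ∈ B \ A, hop b b' * (Real.exp (κ * L) * τ) := by
          apply Finset.sum_le_sum
          intro b' hb'
          rw [abs_mul, abs_mul, abs_of_nonneg (hop_nonneg b b')]
          rcases eq_or_ne (hop b b') 0 with h0 | h0
          · rw [h0]; simp
          · have h4 : sd b b' ≤ 1 := sd_of_hop h0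
            have h5 := mem_box.1 hb
            have h6 : ¬ sd a b' ≤ L := fun hc => (Finset.mem_sdiff.1 hb').2 (mem_box.2 hc)
            have h7 := sd_triangle a b b'
            have h8 : |gr V B E b' a| ≤ τ := by
              rw [gr_symm]
              exact hG b' (Finset.mem_sdiff.1 hb').1 (by omega) (by omega)
            have h9 : |gr V A E u b| ≤ Real.exp (κ * L) := by
              rw [gr_symm]; exact hT b
            calc |gr V A E u b| * hop b b' * |gr V B E b' a|
                = hop b b' * (|gr V A E u b| * |gr V B E b' a|) := by ring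
              _ ≤ hop b b' * (Real.exp (κ * L) * τ) := by
                  apply mul_le_mul_of_nonneg_left _ (hop_nonneg b b')
                  exact mul_le_mul h9 h8 (abs_nonneg _) (Real.exp_pos _).le
      _ = (∑ b' ∈ B \ A, hop b b') * (Real.exp (κ * L) * τ) := by rw [Finset.sum_mul]
      _ ≤ 2 * d * (Real.exp (κ * L) * τ) :=
          mul_le_mul_of_nonneg_right (sum_hop_le b _) (by positivity)
  have h4 : |∑ b ∈ A, ∑ b' ∈ B \ A, gr V A E u b * hop b b' * gr V B E b' a| ≤
      (2 * L + 1) ^ d * (2 * d * (Real.exp (κ * L) * τ)) := by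
    refine (Finset.abs_sum_le_sum_abs _ _).trans ?_
    calc ∑ b ∈ A, |∑ b' ∈ B \ A, gr V A E u b * hop b b' * gr V B E b' a|
        ≤ ∑ _b ∈ A, 2 * d * (Real.exp (κ * L) * τ) :=
          Finset.sum_le_sum fun b hb => (Finset.abs_sum_le_sum_abs _ _).trans (h3 b hb)
      _ = _ := by
          rw [Finset.sum_const, hAdef, card_box, nsmul_eq_mul]
          push_cast
          rfl
  rw [h1]
  refine (abs_sub _ _).trans ?_
  nlinarith

/-- all the cubes are good -/
theorem allGood {V : Site d → ℝ} {E κ μ : ℝ} {L n M : ℕ} (hL : L = M * n) (hM : 4 ≤ M)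
    (hn : 1 ≤ n)
    (hB : (RM V (box 0 (3 * L)) E).det ≠ 0)
    (hA : ∀ a ∈ box (0 : Site d) L, (RM V (box a L) E).det ≠ 0)
    (hT : ∀ a ∈ box (0 : Site d) L, ∀ b u, |gr V (box a L) E b u| ≤ Real.exp (κ * L))
    (hone : ∀ x ∈ box (0 : Site d) (3 * L), ∀ u ∈ box (0 : Site d) (3 * L),
      ∀ y ∈ box (0 : Site d) (3 * L), |gr V (box 0 (3 * L)) E x u| *
        |gr V (box 0 (3 * L)) E u y| ≤ Real.exp (κ * L) * |gr V (box 0 (3 * L)) E x y|)
    (hchn : ∀ k ∈ box (0 : Site d) (M - 1), ∀ a ∈ box (pt n k) n,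
      Real.exp (-(κ * L)) ≤ |gr V (box 0 (3 * L)) E (pt n k) a|)
    (hgood : ∀ k ∈ box (0 : Site d) (M - 1), ∃ s ∈ box (pt n k) n,
      ∀ w ∈ box (0 : Site d) (3 * L), L ≤ 2 * sd s w →
        |gr V (box 0 (3 * L)) E s w| ≤ Real.exp (-μ * L))
    (hnum : Real.exp (-(μ - 4 * κ) * L) *
      (1 + 2 * d * (2 * L + 1) ^ d * Real.exp (κ * L)) ≤ Real.exp (-(μ / 2) * L)) :
    AllGoodC V 0 L (μ / 2) E := by
  have hM1 : 1 ≤ M := by omega
  have hL1 : 4 ≤ L := by
    rw [hL]
    calc 4 = 4 * 1 := by norm_num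
      _ ≤ M * n := Nat.mul_le_mul hM hn
  have h4n : 4 * n ≤ L := by
    rw [hL]; exact Nat.mul_le_mul_right n hM
  intro a ha
  refine ⟨hA a ha, fun u hu => ?_⟩
  have ha' := mem_box.1 ha
  have hsub : box a (L + 1) ⊆ box 0 (3 * L) := by
    intro w hw
    rw [mem_box] at hw ⊢
    have := sd_triangle 0 a w
    omega
  refine (to_cube (τ := Real.exp (-(μ - 4 * κ) * L)) (Real.exp_pos _).le hsub hB (hA a ha)
    (fun b => hT a ha b u) hu ?_).trans hnum
  intro w hw h1 h2
  obtain ⟨k, hk, hak⟩ := cover hM1 (hL ▸ ha)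
  obtain ⟨s, hs, hsw⟩ := hgood k hk
  have hcB : pt n k ∈ box (0 : Site d) (3 * L) := by
    rw [mem_box]
    have := pt_box hk (s := pt n k) (n := n) (by rw [sd_self]; omega) hM1
    rw [← hL] at this
    omega
  have hs' := mem_box.1 hs
  have hsB : s ∈ box (0 : Site d) (3 * L) := by
    rw [mem_box]
    have := pt_box hk hs' hM1
    rw [← hL] at this
    omega
  have haB : a ∈ box (0 : Site d) (3 * L) := by
    rw [mem_box]; omega
  apply transfer_site hone hcB hsB haB hw (hchn k hk s hs) (hchn k hk a (mem_box.2 hak))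
  apply hsw w hw
  have t1 := sd_triangle a s w
  have t2 := sd_triangle a (pt n k) s
  rw [sd_comm a (pt n k)] at t2
  omega

end Pool.Agent.LE.H96
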