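import Pool.Agent.Helper96_EXP.Cvr
import Pool.Agent.Helper42_Mob.Fin3

/-!
# No exponentially decaying eigenfunction outside the localized phase: assembly
-/

set_option autoImplicit false
set_option linter.unusedSectionVars false

open MeasureTheory ProbabilityTheory Function

open scoped ENNReal BigOperators

noncomputable section

namespace Pool.Agent.LE

open Pool.Agent.Anderson Pool.Agent.Loc Pool.Agent.Helper54.Bal Pool.Agent.Mob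
  Pool.Agent.Helper96.EXP

/-- MSA (shared core): the multiscale induction from a constant probability. -/
def MsaC : Prop :=
  ∀ (d : ℕ) (C₀ σ E m : ℝ), 1 ≤ d → 0 < C₀ → σ ≠ 0 → 0 < m →
    ∃ p₀ : ℝ, 0 < p₀ ∧ ∃ L₀ : ℕ, ∀ L : ℕ, L₀ ≤ L →
      PL (gl σ) (box (0 : Site d) (2 * L)) {V | ¬ AllGoodC V 0 L m E} ≤ ENNReal.ofReal p₀ →
        E ∈ LocSet d C₀ σ

/-- The statement of theorem C for the set `LocSet`. -/
def NoExpC : Prop :=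
  ∀ (d : ℕ) (C₀ σ : ℝ), 1 ≤ d → 0 < C₀ → σ ≠ 0 →
    ∀ᵐ V ∂(PP d (gl σ)), ∀ E : ℝ, E ∉ LocSet d C₀ σ → ∀ ψ : Site d → ℂ,
      (∀ x, lap ψ x + (V x : ℂ) * ψ x = (E : ℂ) * ψ x) →
      (∃ B m : ℝ, 0 < m ∧ ∀ x, ‖ψ x‖ ≤ B * Real.exp (-m * sd 0 x)) → ∀ x, ψ x = 0

theorem H96.noExp (hNul : NulStmt) (hNoe : NoeStmt) (hCvr : CvrStmt) (hMsa : MsaC)
    (hOne : ∀ (d : ℕ) (σ E : ℝ), 1 ≤ d → σ ≠ 0 → ∃ C, OneTail d (gl σ) E C)
    (hChn : ∀ (d : ℕ) (σ E : ℝ), 1 ≤ d → σ ≠ 0 → ∃ C, ChnTail d (gl σ) E C) : NoExpC := by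
  intro d C₀ σ hd hC₀ hσ
  refine hNoe d (gl σ) (LocSet d C₀ σ)ᶜ (Pool.Agent.Mob.H42.isOpen_LocSet d C₀ σ).isClosed_compl ?_
  intro C m K hm hK hKD
  refine hNul d (gl σ) (1 / |σ|) (bddDens_gl hσ) C m K hm hK fun E hE => ?_
  by_contra hcon
  apply hKD hE
  obtain ⟨p₀, hp₀, L₀, hL₀⟩ := hMsa d C₀ σ E (m / 16) hd hC₀ hσ (by positivity)
  obtain ⟨L, hL, hprob⟩ := hCvr d σ E hd hσ (hOne d σ E hd hσ) (hChn d σ E hd hσ) C m hm hcon p₀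
    hp₀ L₀
  exact hL₀ L hL hprob

end Pool.Agent.LE
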