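import Pool.Agent.Helper48_Loc.Center

/-!
# Exponentially decaying solutions: the tuned potential is a Lipschitz function of the energy

`n` is a solution of `(Δ + V - E) n = 0` off the site `0` with `n 0 = 1`, exponentially decaying.
`E - lapR n 0` is the value of the potential at `0` for which `n` is an eigenfunction. For two
energies `E`, `E'` these values differ by `(E - E') ∑ n n'`.
-/

set_option autoImplicit false
set_option linter.unusedSectionVars false

open MeasureTheory Function

open scoped ENNReal NNReal BigOperators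

noncomputable section

namespace Pool.Agent.Helper96.EXP

open Pool.Agent.Anderson Pool.Agent.Loc

variable {d : ℕ}

/-- the lattice Laplacian on real functions -/
def lapR (n : Site d → ℝ) (x : Site d) : ℝ :=
  ∑ i : Fin d, (n (x + Pi.single i 1) + n (x - Pi.single i 1))

/-- `|n x| ≤ C e^{-m|x|}` -/
def Dec (C m : ℝ) (n : Site d → ℝ) : Prop := ∀ x, |n x| ≤ C * Real.exp (-m * sd 0 x)

/-- an exponentially decaying solution off the site `0`, with value `1` at `0` -/
def Sol (C m : ℝ) (V : Site d → ℝ) (E : ℝ) (n : Site d → ℝ) : Prop :=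
  n 0 = 1 ∧ Dec C m n ∧ ∀ x, x ≠ 0 → lapR n x + V x * n x = E * n x

/-- there is an exponentially decaying solution off the site `0`, with value `1` at `0` -/
def GoodE (C m : ℝ) (V : Site d → ℝ) (E : ℝ) : Prop := ∃ n, Sol C m V E n

theorem summable_exp0 {m : ℝ} (hm : 0 < m) :
    Summable fun x : Site d => Real.exp (-m * sd 0 x) := by
  have h := summable_exp_sd (d := d) hm 0
  exact h.congr fun x => by rw [sd_comm]

theorem Dec.nonneg {C m : ℝ} {n : Site d → ℝ} (h : Dec C m n) : 0 ≤ C := by
  have h1 := (abs_nonneg _).trans (h 0)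
  have h2 := Real.exp_pos (-m * sd (0 : Site d) 0)
  by_contra hc
  push Not at hc
  nlinarith

theorem Dec.abs_le {C m : ℝ} {n : Site d → ℝ} (hm : 0 < m) (h : Dec C m n) (x : Site d) :
    |n x| ≤ C := by
  have h0 := h.nonneg
  refine (h x).trans ?_
  have h1 : Real.exp (-m * sd 0 x) ≤ 1 := by
    rw [Real.exp_le_one_iff]
    have : (0 : ℝ) ≤ sd 0 x := by positivity
    nlinarith
  nlinarith

theorem Dec.summable_mul {C m : ℝ} {n n' : Site d → ℝ} (hm : 0 < m) (h : Dec C m n)
    (h' : Dec C m n') (a : Site d) : Summable fun x => n (x + a) * n' x := by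
  have h0 := h.nonneg
  refine Summable.of_norm_bounded (g := fun x => C * (C * Real.exp (-m * sd 0 x)))
    (((summable_exp0 hm).mul_left C).mul_left C) fun x => ?_
  rw [Real.norm_eq_abs, abs_mul]
  exact mul_le_mul (h.abs_le hm _) (h' x) (abs_nonneg _) h0

theorem tsum_shift {C m : ℝ} {n n' : Site d → ℝ} (a : Site d) :
    ∑' x, n (x + a) * n' x = ∑' x, n x * n' (x - a) := by
  rw [← (Equiv.addRight a).tsum_eq fun x => n x * n' (x - a)]
  apply tsum_congr
  intro x
  simp

theorem summable_lap {C m : ℝ} {n n' : Site d → ℝ} (hm : 0 < m) (h : Dec C m n)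
    (h' : Dec C m n') : Summable fun x => lapR n x * n' x := by
  have e : (fun x => lapR n x * n' x) = fun x => ∑ i : Fin d,
      (n (x + Pi.single i 1) * n' x + n (x + -Pi.single i 1) * n' x) := by
    funext x
    unfold lapR
    rw [Finset.sum_mul]
    exact Finset.sum_congr rfl fun i _ => by rw [add_mul, sub_eq_add_neg]
  rw [e]
  exact summable_sum fun i _ => (h.summable_mul hm h' _).add (h.summable_mul hm h' _)

theorem tsum_lap {C m : ℝ} {n n' : Site d → ℝ} (hm : 0 < m) (h : Dec C m n)
    (h' : Dec C m n') : ∑' x, lapR n x * n' x = ∑' x, n x * lapR n' x := by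
  have e : ∀ f g : Site d → ℝ, (fun x => lapR f x * g x) = fun x => ∑ i : Fin d,
      (f (x + Pi.single i 1) * g x + f (x + -Pi.single i 1) * g x) := by
    intro f g
    funext x
    unfold lapR
    rw [Finset.sum_mul]
    exact Finset.sum_congr rfl fun i _ => by rw [add_mul, sub_eq_add_neg]
  have e2 : (fun x => n x * lapR n' x) = fun x => lapR n' x * n x := by
    funext x; rw [mul_comm]
  rw [e2, e n n', e n' n, Summable.tsum_finsetSum fun i _ =>
      (h.summable_mul hm h' _).add (h.summable_mul hm h' _),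
    Summable.tsum_finsetSum fun i _ => (h'.summable_mul hm h _).add (h'.summable_mul hm h _)]
  refine Finset.sum_congr rfl fun i _ => ?_
  rw [(h.summable_mul hm h' _).tsum_add (h.summable_mul hm h' _),
    (h'.summable_mul hm h _).tsum_add (h'.summable_mul hm h _), add_comm]
  have k : ∀ (f g : Site d → ℝ) (a : Site d),
      ∑' x, f (x + a) * g x = ∑' x, g (x + -a) * f x := by
    intro f g a
    rw [tsum_shift (C := C) (m := m)]
    apply tsum_congr
    intro x
    rw [mul_comm, sub_eq_add_neg]
  rw [k n n' (-Pi.single i 1), k n n' (Pi.single i 1), neg_neg]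

/-- the key identity -/
theorem key {C m E E' : ℝ} {V n n' : Site d → ℝ} (hm : 0 < m) (hn : Sol C m V E n)
    (hn' : Sol C m V E' n') :
    (E - lapR n 0) - (E' - lapR n' 0) = (E - E') * ∑' x, n x * n' x := by
  obtain ⟨h1, h2, h3⟩ := hn
  obtain ⟨h1', h2', h3'⟩ := hn'
  have s1 := summable_lap hm h2 h2'
  have s2 : Summable fun x => n x * lapR n' x := by
    have := summable_lap hm h2' h2
    exact this.congr fun x => mul_comm _ _
  have s3 : Summable fun x => n x * n' x := by
    have := h2.summable_mul hm h2' 0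
    exact this.congr fun x => by rw [add_zero]
  have e0 : ∑' x, (lapR n x * n' x - n x * lapR n' x) = 0 := by
    rw [s1.tsum_sub s2, tsum_lap hm h2 h2', sub_self]
  have e1 : (fun x => lapR n x * n' x - n x * lapR n' x) = fun x =>
      (E - E') * (n x * n' x) + if x = 0 then (lapR n 0 - lapR n' 0 - (E - E')) else 0 := by
    funext x
    by_cases hx : x = 0
    · subst hx
      rw [if_pos rfl, h1, h1']
      ring
    · rw [if_neg hx]
      have a1 := h3 x hx
      have a2 := h3' x hx
      linear_combination n' x * a1 - n x * a2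
  have s4 : Summable fun x : Site d =>
      if x = 0 then (lapR n 0 - lapR n' 0 - (E - E')) else 0 :=
    (hasSum_ite_eq (0 : Site d) (lapR n 0 - lapR n' 0 - (E - E'))).summable
  rw [e1, (s3.mul_left (E - E')).tsum_add s4, tsum_mul_left, tsum_ite_eq] at e0
  linarith

theorem lip {C m E E' : ℝ} {V n n' : Site d → ℝ} (hm : 0 < m) (hn : Sol C m V E n)
    (hn' : Sol C m V E' n') :
    |(E - lapR n 0) - (E' - lapR n' 0)| ≤
      (C * (C * ∑' x : Site d, Real.exp (-m * sd 0 x))) * |E - E'| := by
  rw [key hm hn hn', abs_mul, mul_comm]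
  apply mul_le_mul_of_nonneg_right _ (abs_nonneg _)
  have h0 := hn.2.1.nonneg
  have s : Summable fun x : Site d => C * (C * Real.exp (-m * sd 0 x)) :=
    ((summable_exp0 hm).mul_left C).mul_left C
  have e : ∑' x : Site d, C * (C * Real.exp (-m * sd 0 x)) =
      C * (C * ∑' x : Site d, Real.exp (-m * sd 0 x)) := by
    rw [tsum_mul_left, tsum_mul_left]
  rw [← e, ← Real.norm_eq_abs]
  apply tsum_of_norm_bounded s.hasSum
  intro x
  rw [Real.norm_eq_abs, abs_mul]
  exact mul_le_mul (hn.2.1.abs_le hm _) (hn'.2.1 x) (abs_nonneg _) h0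

theorem null_image {A : Set ℝ} (hA : volume A = 0) (v : ℝ → ℝ) {K : ℝ≥0}
    (hv : LipschitzOnWith K v A) : volume (v '' A) = 0 := by
  have h := hv.hausdorffMeasure_image_le (d := 1) zero_le_one
  rw [hausdorffMeasure_real, hA, mul_zero] at h
  exact le_antisymm h zero_le

/-- The set of values of the potential at `0` for which there is an exponentially decaying
eigenfunction with an energy in a null set of good energies is a null set. -/
theorem null_values {C m : ℝ} {V : Site d → ℝ} (hm : 0 < m) {K : Set ℝ}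
    (hA : volume {E | E ∈ K ∧ GoodE C m V E} = 0) :
    volume {r : ℝ | ∃ E ∈ K, ∃ n, Sol C m V E n ∧ lapR n 0 + r = E} = 0 := by
  classical
  set v : ℝ → ℝ := fun E => if h : GoodE C m V E then E - lapR h.choose 0 else 0 with hv
  have hve : ∀ E n, Sol C m V E n → v E = E - lapR n 0 := by
    intro E n hn
    have h : GoodE C m V E := ⟨n, hn⟩
    have h1 := key hm h.choose_spec hn
    rw [sub_self, zero_mul, sub_eq_zero] at h1
    rw [hv]
    simp only
    rw [dif_pos h, h1]
  set Λ : ℝ := C * (C * ∑' x : Site d, Real.exp (-m * sd 0 x)) with hΛ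
  have hlip : LipschitzOnWith Λ.toNNReal v {E | E ∈ K ∧ GoodE C m V E} := by
    apply LipschitzOnWith.of_dist_le_mul
    rintro E ⟨_, n, hn⟩ E' ⟨_, n', hn'⟩
    rw [hve E n hn, hve E' n' hn', Real.dist_eq, Real.dist_eq]
    refine (lip hm hn hn').trans ?_
    exact mul_le_mul_of_nonneg_right (Real.le_coe_toNNReal _) (abs_nonneg _)
  refine measure_mono_null ?_ (null_image hA v hlip)
  rintro r ⟨E, hE, n, hn, hr⟩
  refine ⟨E, ⟨hE, n, hn⟩, ?_⟩
  rw [hve E n hn]
  linarith

end Pool.Agent.Helper96.EXP
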