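import Pool.Agent.Helper96_EXP.MainC
import Pool.Agent.Helper77_LE.Clo
import Pool.Agent.Helper85_LE.NulRow
import Pool.Agent.Helper15_LE.NOE
import Pool.Agent.Helper26_LE.Erg
import Pool.Agent.Helper59_LE.Rst
import Pool.Agent.Helper54_LY.Fin
import Pool.Agent.Helper54_LY.Chn3
import Pool.Agent.LE.Stmts3

/-!
# MP_1906c1_mp: outside the localized phase no eigenfunction decays exponentially

For `H = Δ + σ ξ` on `ℤ^d` (any `d ≥ 1`), `ξ` iid standard Gaussian, and any `σ ≠ 0` there is an
open set `Loc` of energies such that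

* almost surely no eigenfunction of `H` with an energy outside `Loc` decays exponentially;
* inside `Loc` there is exponential localization (all polynomially bounded solutions decay
  exponentially, with a rate which is uniform on compact sets, and the eigenfunctions are
  complete) and dynamical localization.

So exponential localization in the weakest sense (an eigenfunction which decays at some exponential
rate, with some constant) occurs in `Loc` and nowhere else, and it forces dynamical localization.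

The proof of the first part. If there are exponentially decaying eigenfunctions with energies
outside `Loc` with positive probability, then there is one energy `E` outside `Loc` such that with
positive probability there is an exponentially decaying solution of `(H - E) n = 0` off the site `0`
with `n 0 = 1`: the value of the potential at `0` for which `n` is an eigenfunction is a Lipschitz
function of the energy. By ergodicity there are such sites `s` in all the cubes of radius `L / M` of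
a cube of radius `L`, `M` a large constant, and the Green function of the cube is exponentially small
between these sites and all distant sites. The inequality
`|G(x, u)| |G(u, y)| ≤ e^t |G(x, y)|`, which holds outside an event of probability `C e^{-t}`, and
chaining, `|G(s, a)| ≥ e^{-κ L}` simultaneously for all `a` in the cube of radius `L / M`, give the
same for all the sites instead of `s`, with a probability close to `1`. A multiscale induction at the
energy `E` and the finite volume criterion for fractional moments give `E ∈ Loc`.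
-/

set_option autoImplicit false

open MeasureTheory ProbabilityTheory

open scoped ENNReal ComplexInnerProductSpace

noncomputable section

namespace Pool.Agent.Helper96.SharpLocalization

open Pool.Agent.Anderson Pool.Agent.Loc Pool.Agent.Helper54.Bal

universe u

variable {d : ℕ}

/-- `(H - z)⁻¹ δ₀` for `H = Δ + V`: the solution `g ∈ ℓ²(ℤ^d)` of `(Δ + V - z) g = δ₀`. For
`Im z ≠ 0` it exists and is unique. -/
def green (V : Site d → ℝ) (z : ℂ) : L2 d :=
  open Classical in
  if h : ∃ g : L2 d, ∀ x, lap g x + ((V x : ℂ) - z) * g x = if x = 0 then 1 else 0 then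
    h.choose else 0

/-- The time averaged mass at distance at least `R` from `0` at the time scale `T`, for the energies
in `(a, b)`: `(1/T) ∫_a^b ∑_{|x| ≥ R} |(H - E - i/T)⁻¹(0, x)|² dE`. Without the restriction on the
energies it is `(2 π / T) ∫₀^∞ e^(-2t/T) ∑_{|x| ≥ R} |(e^(-itH) δ₀)(x)|² dt`. -/
def spreading (V : Site d → ℝ) (T R a b : ℝ) : ℝ≥0∞ :=
  ∫⁻ E in Set.Ioo a b, ∑' x : Site d, if R ≤ (sd 0 x : ℝ) then
    ENNReal.ofReal (‖green V ((E : ℂ) + Complex.I / T) x‖ ^ 2 / T) else 0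

theorem green_eq (V : Site d → ℝ) {z : ℂ} (hz : z.im ≠ 0) : green V z = G V z (del 0) := by
  have hdel : ∀ x, (del (0 : Site d) : L2 d) x = if x = 0 then 1 else 0 := fun x => del_apply 0 x
  have hex : ∃ g : L2 d, ∀ x, lap g x + ((V x : ℂ) - z) * g x = if x = 0 then 1 else 0 :=
    ⟨G V z (del 0), fun x => (G_eq hz (del 0) x).trans (hdel x)⟩
  unfold green
  rw [dif_pos hex]
  exact G_unique hz fun x => (hex.choose_spec x).trans (hdel x).symm

theorem spreading_eq (V : Site d → ℝ) {T : ℝ} (hT : T ≠ 0) (R a b : ℝ) :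
    spreading V T R a b = Pool.Agent.Mob.spread V T R (Set.Ioo a b) := by
  unfold spreading Pool.Agent.Mob.spread
  refine lintegral_congr fun E => tsum_congr fun x => ?_
  have h1 : (E : ℂ) + Complex.I / T = zz (1 / T) E := by
    unfold zz
    push_cast
    ring
  have h2 : (zz (1 / T) E).im ≠ 0 := by
    rw [zz_im]
    exact one_div_ne_zero hT
  rw [h1, green_eq V h2]

theorem noExpT (hMsa : Pool.Agent.LE.MsaC) : Pool.Agent.LE.NoExpC :=
  Pool.Agent.LE.H96.noExp (Pool.Agent.LE.H85.nul Pool.Agent.LE.H77.clo) Pool.Agent.LE.H15.noe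
    (Pool.Agent.LE.H96.cvr Pool.Agent.LE.H26.erg (Pool.Agent.LE.H59.rst Pool.Agent.LE.H77.clo)
      Pool.Agent.LE.H77.clo) hMsa
    (fun d σ E _ hσ => ⟨_, Pool.Agent.LY.oneTail (d := d) hσ E⟩)
    (fun d σ E _ hσ => Pool.Agent.LY.chn (d := d) hσ E)

/-- Let `d ≥ 1`, `ξ(y)`, `y ∈ ℤ^d`, independent standard Gaussians, `H = Δ + σ ξ`. For each `σ ≠ 0`
there is an open set `Loc` of energies with

* if `d ≥ 3`, all `|E| > K` are in `Loc`, for some `K`;
* almost surely, no eigenfunction with an energy outside `Loc` decays exponentially: if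
  `H ψ = E ψ`, `E ∉ Loc` and `|ψ(x)| ≤ B e^{-m|x|}` for some `B` and some `m > 0`, then `ψ = 0`;
* for each compact `K ⊆ Loc`, almost surely, every polynomially bounded solution of `H ψ = E ψ`
  with `E ∈ K` decays exponentially, with a rate `m > 0` which depends on `K`;
* almost surely, for all `[c - r, c + r] ⊆ Loc`: a vector `u ∈ ℓ²` with `w = H u ∈ ℓ²` which is
  orthogonal to the eigenfunctions with eigenvalues in `[c - r, c + r]` satisfies
  `‖(H - c) u‖ ≥ r ‖u‖`, so the spectrum is pure point in `(c - r, c + r)`;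
* if `[a, b] ⊆ Loc` then, for all `β > 0` and `k`, the mean of `spreading T (T ^ β) a b` is at most
  `T ^ (-k)` for large `T`. -/
theorem result (hMsa : Pool.Agent.LE.MsaC) (d : ℕ) (hd : 1 ≤ d) (σ : ℝ) (hσ : σ ≠ 0) :
    ∃ Loc : Set ℝ, IsOpen Loc ∧ (3 ≤ d → ∃ K : ℝ, ∀ E : ℝ, K < |E| → E ∈ Loc) ∧
      ∀ (Ω : Type u) [MeasurableSpace Ω] (P : Measure Ω) [IsProbabilityMeasure P]
        (ξ : Site d → Ω → ℝ), (∀ y, Measurable (ξ y)) →
        (∀ y, P.map (ξ y) = gaussianReal 0 1) → iIndepFun ξ P →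
        (∀ᵐ ω ∂P, ∀ E : ℝ, E ∉ Loc → ∀ ψ : Site d → ℂ,
          (∀ x, lap ψ x + ((σ * ξ x ω : ℝ) : ℂ) * ψ x = (E : ℂ) * ψ x) →
          (∃ B m : ℝ, 0 < m ∧ ∀ x, ‖ψ x‖ ≤ B * Real.exp (-m * sd 0 x)) → ∀ x, ψ x = 0) ∧
        (∀ K : Set ℝ, IsCompact K → K ⊆ Loc → ∃ m : ℝ, 0 < m ∧ ∀ᵐ ω ∂P, ∀ E ∈ K,
          ∀ ψ : Site d → ℂ,
            (∃ (B : ℝ) (k : ℕ), ∀ x, ‖ψ x‖ ≤ B * (1 + (sd 0 x : ℝ)) ^ k) →
            (∀ x, lap ψ x + ((σ * ξ x ω : ℝ) : ℂ) * ψ x = (E : ℂ) * ψ x) →
            ∃ B : ℝ, ∀ x, ‖ψ x‖ ≤ B * Real.exp (-m * sd 0 x)) ∧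
        (∀ᵐ ω ∂P, ∀ c r : ℝ, Set.Icc (c - r) (c + r) ⊆ Loc → ∀ u w : L2 d,
          (∀ x, w x = lap u x + ((σ * ξ x ω : ℝ) : ℂ) * u x) →
          (∀ (E : ℝ) (ψ : L2 d), E ∈ Set.Icc (c - r) (c + r) →
            IsEigen (fun x => σ * ξ x ω) E ψ → ⟪ψ, u⟫ = 0) →
          r * ‖u‖ ≤ ‖w - (c : ℂ) • u‖) ∧
        (∀ a b β k : ℝ, Set.Icc a b ⊆ Loc → 0 < β → ∃ T₀ : ℝ, ∀ T : ℝ, T₀ ≤ T →
          ∫⁻ ω, spreading (fun x => σ * ξ x ω) T (T ^ β) a b ∂P ≤ ENNReal.ofReal (T ^ (-k))) := by
  obtain ⟨σ₁, C, hσ₁, hC, h⟩ := Pool.Agent.LE.H96.mainCT.{u} (noExpT hMsa) d hd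
  obtain ⟨Loc, h1, h2, h3, h4⟩ := h σ hσ
  refine ⟨Loc, h1, fun hd3 => ⟨_, h3 hd3⟩, ?_⟩
  intro Ω _ P _ ξ hm hlaw hind
  obtain ⟨g1, g2, g3, g4, g5, g6⟩ := h4 Ω P ξ hm hlaw hind
  refine ⟨g6, g1, g2, ?_⟩
  intro a b β k hab hβ
  obtain ⟨T₀, hT⟩ := g3 a b β k hab hβ
  refine ⟨max T₀ 1, fun T hTT => ?_⟩
  have hT0 : T ≠ 0 := (lt_of_lt_of_le one_pos ((le_max_right _ _).trans hTT)).ne'
  simp only [spreading_eq _ hT0]
  exact hT T ((le_max_left _ _).trans hTT)

end Pool.Agent.Helper96.SharpLocalization
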